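import Pool.Agent.helper64.PB.SpecW

/-! # Project pb (MP_069684_lc), row HIN -/

set_option autoImplicit false

namespace Pool.Agent.PB

theorem HIN_cases {k n : ℕ} {h : BF n} {z : Fin ((k + 1) * n + (k + 2)) → Bool}
    (hz : fH k n h z = true) :
    (∀ i, z i = true) ∨
    ((∀ m : Fin (k + 2), z (eH k n (Sum.inr m)) = !(decide (m = Fin.last (k + 1)))) ∧
      (∀ (j : Fin (k + 1)) (i : Fin n), z (eH k n (Sum.inl (j, i))) = z (eH k n (Sum.inl (0, i)))) ∧
      h (fun i => z (eH k n (Sum.inl (0, i)))) = true) ∨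
    ∃ j : Fin (k + 1), (∀ m : Fin (k + 2), z (eH k n (Sum.inr m)) = !(decide (m = j.castSucc))) ∧
      (∀ (j' : Fin (k + 1)) (i : Fin n), j' ≠ j → z (eH k n (Sum.inl (j', i))) = true) ∧
      h (fun i => !(z (eH k n (Sum.inl (j, i))))) = false := by
  unfold fH at hz
  simp only [Bool.or_eq_true, Bool.and_eq_true, decide_eq_true_eq] at hz
  rcases hz with (h1 | ⟨⟨h1, h2⟩, h3⟩) | ⟨j, h1, h2, h3⟩
  · exact Or.inl h1
  · exact Or.inr (Or.inl ⟨h1, h2, h3⟩)
  · exact Or.inr (Or.inr ⟨j, h1, h2, h3⟩)

theorem HIN_uniq {k n : ℕ} {h : BF n} {z : Fin ((k + 1) * n + (k + 2)) → Bool}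
    (hz : fH k n h z = true) {m m' : Fin (k + 2)} (hm : z (eH k n (Sum.inr m)) = false)
    (hm' : z (eH k n (Sum.inr m')) = false) : m = m' := by
  rcases HIN_cases hz with h1 | ⟨h1, _, _⟩ | ⟨j, h1, _, _⟩
  · rw [h1] at hm
    exact absurd hm (by decide)
  · rw [h1] at hm hm'
    simp only [Bool.not_eq_false', decide_eq_true_eq] at hm hm'
    rw [hm, hm']
  · rw [h1] at hm hm'
    simp only [Bool.not_eq_false', decide_eq_true_eq] at hm hm'
    rw [hm, hm']

theorem HIN_last {k n : ℕ} {h : BF n} {z : Fin ((k + 1) * n + (k + 2)) → Bool}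
    (hz : fH k n h z = true) (hm : z (eH k n (Sum.inr (Fin.last (k + 1)))) = false) :
    h (fun i => z (eH k n (Sum.inl (0, i)))) = true := by
  rcases HIN_cases hz with h1 | ⟨_, _, h3⟩ | ⟨j, h1, _, _⟩
  · rw [h1] at hm
    exact absurd hm (by decide)
  · exact h3
  · rw [h1] at hm
    simp only [Bool.not_eq_false', decide_eq_true_eq] at hm
    exact absurd hm.symm (Fin.castSucc_lt_last j).ne

theorem HIN_block {k n : ℕ} {h : BF n} {z : Fin ((k + 1) * n + (k + 2)) → Bool}
    (hz : fH k n h z = true) (j : Fin (k + 1)) (hm : z (eH k n (Sum.inr j.castSucc)) = false) :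
    (∀ (j' : Fin (k + 1)) (i : Fin n), j' ≠ j → z (eH k n (Sum.inl (j', i))) = true) ∧
      h (fun i => !(z (eH k n (Sum.inl (j, i))))) = false := by
  rcases HIN_cases hz with h1 | ⟨h1, _, _⟩ | ⟨j0, h1, h2, h3⟩
  · rw [h1] at hm
    exact absurd hm (by decide)
  · rw [h1] at hm
    simp only [Bool.not_eq_false', decide_eq_true_eq] at hm
    exact absurd hm (Fin.castSucc_lt_last j).ne
  · rw [h1] at hm
    simp only [Bool.not_eq_false', decide_eq_true_eq] at hm
    have : j = j0 := Fin.castSucc_injective _ hm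
    subst this
    exact ⟨h2, h3⟩

/-- HIN: `fH` has `Inter (k + 2)` and value 1 at the vector of ones. -/
theorem HIN : HIN_stmt := by
  intro k n h hmono
  constructor
  · intro a ha
    by_cases hc : ∃ m : Fin (k + 2), ∀ j, a j (eH k n (Sum.inr m)) = true
    · obtain ⟨m, hm⟩ := hc
      exact ⟨_, hm⟩
    · push Not at hc
      choose σ hσ using hc
      have hσ' : ∀ m, a (σ m) (eH k n (Sum.inr m)) = false := fun m => by
        simpa using hσ m
      have hinj : Function.Injective σ := by
        intro m m' hmm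
        apply HIN_uniq (ha (σ m)) (hσ' m)
        rw [hmm]
        exact hσ' m'
      have hsurj : Function.Surjective σ := Finite.surjective_of_injective hinj
      have hx := HIN_last (ha _) (hσ' (Fin.last (k + 1)))
      have hw := HIN_block (ha _) 0 (hσ' (Fin.castSucc 0))
      have hi : ∃ i : Fin n, a (σ (Fin.last (k + 1))) (eH k n (Sum.inl (0, i))) = true ∧
          a (σ (Fin.castSucc 0)) (eH k n (Sum.inl (0, i))) = true := by
        by_contra hcon
        push Not at hcon
        have h2 := hmono _ (fun i => !(a (σ (Fin.castSucc 0)) (eH k n (Sum.inl (0, i))))) (by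
          intro i hi
          have := hcon i hi
          simpa using this) hx
        rw [hw.2] at h2
        exact absurd h2 (by decide)
      obtain ⟨i, hi1, hi2⟩ := hi
      refine ⟨eH k n (Sum.inl (0, i)), fun j => ?_⟩
      obtain ⟨m, rfl⟩ := hsurj j
      rcases Fin.eq_castSucc_or_eq_last m with ⟨j0, rfl⟩ | rfl
      · by_cases hj0 : j0 = 0
        · subst hj0
          exact hi2
        · exact (HIN_block (ha _) j0 (hσ' j0.castSucc)).1 0 i (Ne.symm hj0)
      · exact hi1
  · unfold fH
    simp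

end Pool.Agent.PB
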