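import Pool.Agent.helper64.PB.SpecF

/-! # Project pb (MP_069684_lc), row PRB -/

set_option autoImplicit false

namespace Pool.Agent.PB

open Finset Polynomial

theorem PRB_pres {P : Type} [Fintype P] [DecidableEq P] (L : ℕ) (T : Finset P) (f : P → Fin L)
    (A : Finset (P → Fin L)) (hA : ∀ ω ∈ A, ∀ t ∈ T, ω t = f t) :
    A.card * L ^ T.card ≤ L ^ Fintype.card P := by
  classical
  have hsub : A ⊆ Fintype.piFinset (fun t => if t ∈ T then {f t} else (univ : Finset (Fin L))) := by
    intro ω hω
    rw [Fintype.mem_piFinset]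
    intro t
    by_cases ht : t ∈ T
    · simp only [ht, if_true, mem_singleton]
      exact hA ω hω t ht
    · simp only [ht, if_false, mem_univ]
  have hcard := Finset.card_le_card hsub
  rw [Fintype.card_piFinset] at hcard
  have hprod : ∏ t : P, (if t ∈ T then {f t} else (univ : Finset (Fin L))).card =
      L ^ (univ \ T).card := by
    rw [← Finset.prod_sdiff (Finset.subset_univ T)]
    have h1 : ∏ t ∈ univ \ T, (if t ∈ T then {f t} else (univ : Finset (Fin L))).card =
        ∏ t ∈ univ \ T, L := by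
      refine Finset.prod_congr rfl fun t ht => ?_
      have : t ∉ T := (Finset.mem_sdiff.mp ht).2
      simp [this]
    have h2 : ∏ t ∈ T, (if t ∈ T then {f t} else (univ : Finset (Fin L))).card = 1 := by
      refine Finset.prod_eq_one fun t ht => ?_
      simp [ht]
    rw [h1, h2, mul_one, Finset.prod_const]
  rw [hprod] at hcard
  calc A.card * L ^ T.card ≤ L ^ (univ \ T).card * L ^ T.card := Nat.mul_le_mul_right _ hcard
    _ = L ^ ((univ \ T).card + T.card) := (pow_add _ _ _).symm
    _ = L ^ Fintype.card P := by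
        rw [Finset.card_sdiff_add_card_eq_card (Finset.subset_univ T), Finset.card_univ]

theorem PRB_one {K : Type} [Field K] [Fintype K] [DecidableEq K] (p L G : ℕ) (ε : K ≃ Fin p × Fin L)
    (S : Finset (K × K)) (γ : S → Fin G) :
    (univ.filter fun ω : Fin G → (K × Fin p → Fin L) => ∀ z : S, hit ε (ω (γ z)) z.1).card * L ^ S.card ≤
      Fintype.card (Fin G → (K × Fin p → Fin L)) := by
  classical
  set A := (univ.filter fun ω : Fin G → (K × Fin p → Fin L) => ∀ z : S, hit ε (ω (γ z)) z.1) with hAdef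
  rcases Finset.eq_empty_or_nonempty A with hA | ⟨ω0, hω0⟩
  · rw [hA]
    simp
  · let e : (Fin G → (K × Fin p → Fin L)) ≃ (Fin G × (K × Fin p) → Fin L) := (Equiv.curry _ _ _).symm
    let κ : S → Fin G × (K × Fin p) := fun z => (γ z, (z.1.1, (ε z.1.2).1))
    have hmem : ∀ ω ∈ A, ∀ z : S, e ω (κ z) = (ε z.1.2).2 := by
      intro ω hω z
      exact (Finset.mem_filter.mp hω).2 z
    have hinj : Function.Injective κ := by
      intro z z' h
      have h1 : (ε z.1.2).2 = (ε z'.1.2).2 := by
        rw [← hmem ω0 hω0 z, ← hmem ω0 hω0 z', h]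
      have h2 : (z.1.1, (ε z.1.2).1) = (z'.1.1, (ε z'.1.2).1) := congrArg Prod.snd h
      obtain ⟨h3, h4⟩ := Prod.mk.inj h2
      have h5 : z.1.2 = z'.1.2 := ε.injective (Prod.ext h4 h1)
      exact Subtype.ext (Prod.ext h3 h5)
    have hT : ((univ : Finset S).image κ).card = S.card := by
      rw [Finset.card_image_of_injective _ hinj, Finset.card_univ, Fintype.card_coe]
    have hmain := PRB_pres L ((univ : Finset S).image κ) (e ω0) (A.map e.toEmbedding) (by
      intro ω' hω' t ht
      obtain ⟨ω, hω, rfl⟩ := Finset.mem_map.mp hω'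
      obtain ⟨z, _, rfl⟩ := Finset.mem_image.mp ht
      show e ω (κ z) = e ω0 (κ z)
      rw [hmem ω hω z, hmem ω0 hω0 z])
    rw [Finset.card_map, hT] at hmain
    refine hmain.trans (le_of_eq ?_)
    rw [Fintype.card_congr e, Fintype.card_fun, Fintype.card_fin]

/-- PRB. -/
theorem PRB : PRB_stmt := by
  intro K _ _ _ p L G ε S
  classical
  have hsub : (univ.filter fun ω : Fin G → (K × Fin p → Fin L) => ∀ z ∈ S, Ng ε ω z = true) ⊆
      (univ : Finset (S → Fin G)).biUnion (fun γ =>
        univ.filter fun ω : Fin G → (K × Fin p → Fin L) => ∀ z : S, hit ε (ω (γ z)) z.1) := by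
    intro ω hω
    have h1 := (Finset.mem_filter.mp hω).2
    have h2 : ∀ z : S, ∃ g, hit ε (ω g) z.1 := by
      intro z
      have := h1 z.1 z.2
      unfold Ng at this
      exact of_decide_eq_true this
    choose γ hγ using h2
    exact Finset.mem_biUnion.mpr ⟨γ, Finset.mem_univ _, Finset.mem_filter.mpr ⟨Finset.mem_univ _, hγ⟩⟩
  have hc := (Finset.card_le_card hsub).trans Finset.card_biUnion_le
  calc _ ≤ (∑ γ : S → Fin G,
        (univ.filter fun ω : Fin G → (K × Fin p → Fin L) => ∀ z : S, hit ε (ω (γ z)) z.1).card) *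
          L ^ S.card := Nat.mul_le_mul_right _ hc
    _ = ∑ γ : S → Fin G,
        (univ.filter fun ω : Fin G → (K × Fin p → Fin L) => ∀ z : S, hit ε (ω (γ z)) z.1).card *
          L ^ S.card := Finset.sum_mul _ _ _
    _ ≤ ∑ γ : S → Fin G, Fintype.card (Fin G → (K × Fin p → Fin L)) :=
        Finset.sum_le_sum fun γ _ => PRB_one p L G ε S γ
    _ = G ^ S.card * Fintype.card (Fin G → (K × Fin p → Fin L)) := by
        rw [Finset.sum_const, smul_eq_mul, Finset.card_univ, Fintype.card_fun, Fintype.card_fin,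
          Fintype.card_coe]

end Pool.Agent.PB
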